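import Pool.Agent.H93.EN.Targets4

/-!
# Bright corners: one step of the recursion for the energies
-/

namespace Pool.Agent.H63.EN

open MeasureTheory Set Metric Filter Topology Pool.Agent.H93.EN
open Pool.Agent.H93.BL hiding T_B1 T_B2 T_B3 T_SB T_SC

/-- pointwise bound of the integrand of Green's identity -/
theorem grn_le (X : ℂ → ℂ → ℂ → ℝ) (δ : ℝ) (k : ℤ) (η : ℂ → ℝ) (x : ℂ) :
    |grn X δ k η x| ≤ ‖fderiv ℝ η x‖ *
      (‖uX X δ k x‖ * (‖hX X δ (k + 1) x‖ + ‖hX X δ (k - 1) x‖)) := by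
  have ha : |fderiv ℝ η x 1| ≤ ‖fderiv ℝ η x‖ := by
    have := (fderiv ℝ η x).le_opNorm (1 : ℂ)
    simpa using this
  have hb : |fderiv ℝ η x Complex.I| ≤ ‖fderiv ℝ η x‖ := by
    have := (fderiv ℝ η x).le_opNorm Complex.I
    simpa using this
  have h0 : 0 ≤ ‖fderiv ℝ η x‖ := norm_nonneg _
  unfold grn
  generalize fderiv ℝ η x 1 = p at *
  generalize fderiv ℝ η x Complex.I = q at *
  generalize ‖fderiv ℝ η x‖ = N at *
  generalize uX X δ k x = u
  generalize hX X δ (k + 1) x = a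
  generalize hX X δ (k - 1) x = b
  refine (Complex.abs_im_le_norm _).trans ?_
  rw [norm_mul]
  have hu : ‖(starRingEnd ℂ) u‖ = ‖u‖ := RCLike.norm_conj u
  rw [hu]
  have h1 : ‖(p : ℂ) * ((a + b) / 2)‖ ≤ N * ((‖a‖ + ‖b‖) / 2) := by
    rw [norm_mul, Complex.norm_real, Real.norm_eq_abs]
    refine mul_le_mul ha ?_ (norm_nonneg _) h0
    rw [norm_div, Complex.norm_ofNat]
    have := norm_add_le a b
    linarith
  have h2 : ‖(q : ℂ) * (Complex.I / 2 * (b - a))‖ ≤ N * ((‖a‖ + ‖b‖) / 2) := by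
    rw [norm_mul, Complex.norm_real, Real.norm_eq_abs]
    refine mul_le_mul hb ?_ (norm_nonneg _) h0
    rw [norm_mul, norm_div, Complex.norm_ofNat, Complex.norm_I]
    have := norm_sub_le b a
    linarith
  have h3 := norm_sub_le ((p : ℂ) * ((a + b) / 2)) ((q : ℂ) * (Complex.I / 2 * (b - a)))
  have h4 : ‖(p : ℂ) * ((a + b) / 2) - (q : ℂ) * (Complex.I / 2 * (b - a))‖ ≤
      N * (‖a‖ + ‖b‖) := by linarith
  have h5 := mul_le_mul_of_nonneg_left h4 (norm_nonneg u)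
  calc ‖u‖ * ‖(p : ℂ) * ((a + b) / 2) - (q : ℂ) * (Complex.I / 2 * (b - a))‖
      ≤ ‖u‖ * (N * (‖a‖ + ‖b‖)) := h5
    _ = N * (‖u‖ * (‖a‖ + ‖b‖)) := by ring

/-- product of an integrable function with a bounded continuous function which vanishes off a
set -/
theorem int_of (Ω T : Set ℂ) (hΩ : MeasurableSet Ω) (φ : ℂ → ℝ) (hφ : Continuous φ) (C : ℝ)
    (hC : ∀ x, ‖φ x‖ ≤ C) (h0 : ∀ x, x ∉ T → φ x = 0) (g : ℂ → ℝ)
    (hg : IntegrableOn g (Ω ∩ T)) : IntegrableOn (fun x => φ x * g x) Ω := by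
  have h1 : IntegrableOn (fun x => φ x * g x) (Ω ∩ T) := by
    refine Integrable.bdd_mul (c := C) hg hφ.aestronglyMeasurable ?_
    exact Eventually.of_forall hC
  refine h1.of_forall_sdiff_eq_zero hΩ ?_
  intro x hx
  have : x ∉ T := fun hT => hx.2 ⟨hx.1, hT⟩
  rw [h0 x this, zero_mul]

/-- one step of the recursion for the energies -/
theorem en1 (h1 : T_GRN) (h2 : T_INT) (h3 : T_SM) : T_EN1 := by
  intro ι _ D δ hδ η hη hηc hsupp k
  obtain ⟨hΩ, -, -, -, -, -, hint⟩ := h2 ι D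
  have hG := h1 ι D δ hδ k η hη hηc hsupp
  have hub := fun k : ℤ => ((h3 ι D δ hδ).2.2.2.2 k).2.2.1
  set T : Set ℂ := tsupport η with hT
  have hTm : MeasurableSet T := (isClosed_tsupport η).measurableSet
  have hS : D.P.Ω ∩ T ⊆ D.OM δ := by
    intro x hx
    exact ⟨hx.1, by have := hsupp x hx.2; linarith⟩
  have hSm : MeasurableSet (D.P.Ω ∩ T) := hΩ.inter hTm
  have hI := hint δ hδ _ hS hSm
  -- the cutoff function and its derivative
  have hη0 : ∀ x, x ∉ T → η x = 0 := fun x hx => image_eq_zero_of_notMem_tsupport hx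
  obtain ⟨C₁, hC₁⟩ := hηc.exists_bound_of_continuous hη.continuous
  have hdc : Continuous (fderiv ℝ η) := hη.continuous_fderiv (by norm_num)
  have hφc : Continuous fun x => ‖fderiv ℝ η x‖ := hdc.norm
  obtain ⟨C₂, hC₂⟩ := (hηc.fderiv (𝕜 := ℝ)).exists_bound_of_continuous hdc
  have hφ0 : ∀ x, x ∉ T → ‖fderiv ℝ η x‖ = 0 := by
    intro x hx
    rw [norm_eq_zero]
    by_contra hne
    exact hx (support_fderiv_subset ℝ hne)
  have hA : ∀ m : ℤ, IntegrableOn (fun x => η x * ‖D.h δ m x‖ ^ 2) D.P.Ω := fun m =>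
    int_of D.P.Ω T hΩ η hη.continuous C₁ hC₁ hη0 _ (hI.2 m).2.1
  have hu1 : ∀ m : ℤ, IntegrableOn (fun x => ‖D.u δ k x‖ * ‖D.h δ m x‖) (D.P.Ω ∩ T) := by
    intro m
    have := Integrable.bdd_mul (c := 1) (f := fun x => ‖D.u δ k x‖) (hI.2 m).1
      (hI.2 k).2.2.aestronglyMeasurable.norm
      (Eventually.of_forall fun x => by
        rw [norm_norm]
        exact hub k x)
    exact this
  have hB : IntegrableOn (fun x => ‖fderiv ℝ η x‖ *
      (‖D.u δ k x‖ * (‖D.h δ (k + 1) x‖ + ‖D.h δ (k - 1) x‖))) D.P.Ω := by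
    refine int_of D.P.Ω T hΩ (fun x => ‖fderiv ℝ η x‖) hφc C₂ ?_ hφ0 _ ?_
    · intro x
      rw [norm_norm]
      exact hC₂ x
    · have := (hu1 (k + 1)).add (hu1 (k - 1))
      refine this.congr (Eventually.of_forall fun x => ?_)
      simp only [Pi.add_apply]
      ring
  have e1 : (∫ x in D.P.Ω, η x * ‖D.h δ (k + 1) x‖ ^ 2) -
      ∫ x in D.P.Ω, η x * ‖D.h δ (k - 1) x‖ ^ 2 =
      -2 * ∫ x in D.P.Ω, grn D.X δ k η x := by
    rw [← integral_sub (hA (k + 1)) (hA (k - 1))]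
    have e2 : ∫ x in D.P.Ω, (η x * ‖D.h δ (k + 1) x‖ ^ 2 - η x * ‖D.h δ (k - 1) x‖ ^ 2) =
        4 * ∫ x in D.P.Ω,
          η x * ((‖hX D.X δ (k + 1) x‖ ^ 2 - ‖hX D.X δ (k - 1) x‖ ^ 2) / 4) := by
      rw [← integral_const_mul]
      refine integral_congr_ae (Eventually.of_forall fun x => ?_)
      simp only [Dat.h]
      ring
    rw [e2]
    unfold GreenId at hG
    rw [hG]
    ring
  rw [e1, abs_mul]
  have e3 : |(-2 : ℝ)| = 2 := by norm_num
  rw [e3]
  refine mul_le_mul_of_nonneg_left ?_ (by norm_num)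
  rw [← Real.norm_eq_abs]
  refine norm_integral_le_of_norm_le hB (Eventually.of_forall fun x => ?_)
  rw [Real.norm_eq_abs]
  exact grn_le D.X δ k η x

end Pool.Agent.H63.EN
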